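import Pool.Agent.H27.SolAut

set_option autoImplicit false

namespace Pool.Agent.Results.MP_7909d8_al.Length4

theorem result :
    ∀ (G : Type) [Group G] [Countable G],
      ∃ (S : Type) (_ : Group S), Group.FG S ∧ derivedSeries S 4 = ⊥ ∧
        ∃ f : G →* MulAut S, Function.Injective f :=
  fun G _ _ => Pool.Agent.H27.SolAut.main G

end Pool.Agent.Results.MP_7909d8_al.Length4
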